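import Pool.Agent.Q23.SP.Num

/-!
# The values of `S_p` at the cube roots of unity: the conjectured formula fails for `p = 107`

For `p = 107` the least solution of `3 x^2 + 4 (p/3) = p y^2` is `(12, 2)`, so the conjecture predicts
`|S_p(ω)| = 6 √3 - √107 = 0.048...` and `|S_p(ω⁻¹)| = 6 √3 + √107 = 20.7...`; in fact
`|S_p(ω)| = 0.00011...` and `|S_p(ω⁻¹)| = 8916.5...` (these are the cubes: the class number of
`ℚ(√321)` is `3`).
-/

set_option autoImplicit false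

open Complex

namespace Pool.Agent.Results.MP_06877e_nt.FailsForOneHundredSeven

/-- `S_p(x)`, the product of `x - exp(2 π i k^2 / p)` over `1 ≤ k ≤ (p - 1) / 2` -/
noncomputable def S (p : ℕ) (x : ℂ) : ℂ :=
  ∏ k ∈ Finset.Icc 1 ((p - 1) / 2), (x - exp (2 * (Real.pi : ℂ) * I * (k : ℂ) ^ 2 / p))

/-- `ω = exp(2 π i / 3)` -/
noncomputable def ω : ℂ := exp (2 * (Real.pi : ℂ) * I / 3)

/-- the class number of `ℚ(√-p)` -/
noncomputable def h (p : ℕ) : ℕ :=
  Nat.card (ClassGroup (NumberField.RingOfIntegers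
    (IntermediateField.adjoin ℚ {I * ((Real.sqrt p : ℝ) : ℂ)})))

/-- the number of the quadratic residues `k` with `1 ≤ k < p / 3` -/
def N (p : ℕ) [Fact p.Prime] : ℕ :=
  ((Finset.range p).filter (fun k => 0 < k ∧ 3 * k < p ∧ legendreSym p (k : ℤ) = 1)).card

/-- `(x, y)` is the least solution in positive integers of `3 x^2 + 4 (p/3) = p y^2` -/
def IsLeastSolution (p x y : ℕ) : Prop :=
  (0 < x ∧ 0 < y ∧ 3 * (x : ℤ) ^ 2 + 4 * jacobiSym (p : ℤ) 3 = p * (y : ℤ) ^ 2) ∧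
    ∀ x' y' : ℕ, 0 < x' → 0 < y' → 3 * (x' : ℤ) ^ 2 + 4 * jacobiSym (p : ℤ) 3 = p * (y' : ℤ) ^ 2 →
      x ≤ x' ∧ y ≤ y'

/-- the sign `σ_p` -/
noncomputable def σ (p : ℕ) : ℂ := (-1) ^ ((h p + 1) / 2) * (jacobiSym (p : ℤ) 3 : ℂ)

/-- the number `c_p` -/
noncomputable def c (p : ℕ) [Fact p.Prime] : ℂ := if p % 12 = 7 then I else (-1) ^ N p * I * ω

/-- the number `d_p` -/
noncomputable def d (p : ℕ) [Fact p.Prime] : ℂ := if p % 12 = 7 then I else (-1) ^ N p * I * ω⁻¹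

/-- the first identity of the problem -/
def FirstIdentity (p : ℕ) [Fact p.Prime] (x y : ℕ) : Prop :=
  S p ω = σ p * c p * (((1 / 2 * (x * Real.sqrt 3 - y * Real.sqrt p) : ℝ)) : ℂ)

/-- the second identity of the problem -/
def SecondIdentity (p : ℕ) [Fact p.Prime] (x y : ℕ) : Prop :=
  S p ω⁻¹ = -σ p * d p * (((1 / 2 * (x * Real.sqrt 3 + y * Real.sqrt p) : ℝ)) : ℂ)

lemma norm_sub_exp (α β : ℝ) :
    ‖exp ((α : ℂ) * I) - exp ((β : ℂ) * I)‖ ^ 2 = 4 * Real.sin ((α - β) / 2) ^ 2 := by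
  have h1 : exp ((α : ℂ) * I) - exp ((β : ℂ) * I) =
      exp ((β : ℂ) * I) * (exp (I * ((α - β : ℝ) : ℂ)) - 1) := by
    rw [mul_sub, ← exp_add, mul_one]
    congr 2
    push_cast
    ring
  rw [h1, norm_mul, norm_exp_ofReal_mul_I, one_mul, norm_exp_I_mul_ofReal_sub_one, Real.norm_eq_abs,
    sq_abs]
  ring

lemma norm_ω : ‖ω‖ = 1 := by
  have h1 : ω = exp (((2 * Real.pi / 3 : ℝ) : ℂ) * I) := by
    rw [ω]; congr 1; push_cast; ring
  rw [h1, norm_exp_ofReal_mul_I]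

lemma norm_S : ‖S 107 ω‖ ^ 2 < 1 / 1000 := by
  refine lt_of_eq_of_lt ?_ Pool.Agent.Q23.SP.UU_prod_real
  rw [S, norm_prod, ← Finset.prod_pow, show (107 - 1) / 2 = 53 by norm_num]
  apply Finset.prod_congr rfl
  intro k hk
  rw [Finset.mem_Icc] at hk
  have h1 : ω = exp (((2 * Real.pi / 3 : ℝ) : ℂ) * I) := by
    rw [ω]; congr 1; push_cast; ring
  have h2 : exp (2 * (Real.pi : ℂ) * I * (k : ℂ) ^ 2 / (107 : ℕ)) =
      exp (((2 * Real.pi * (k : ℝ) ^ 2 / 107 : ℝ) : ℂ) * I) := by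
    congr 1; push_cast; ring
  rw [h1, h2, norm_sub_exp]
  congr 1
  have h3 : 3 * k ^ 2 ≤ 107 + 3 * (107 * 27) := by nlinarith
  rw [Nat.cast_sub h3]
  have h4 : Real.pi * (((107 + 3 * (107 * 27) : ℕ) : ℝ) - ((3 * k ^ 2 : ℕ) : ℝ)) / 321 =
      (2 * Real.pi / 3 - 2 * Real.pi * (k : ℝ) ^ 2 / 107) / 2 + (27 : ℕ) * Real.pi := by
    push_cast
    ring
  rw [h4, Real.sin_add_nat_mul_pi, mul_pow, ← pow_mul]
  norm_num

lemma norm_S' : 450 < ‖S 107 ω⁻¹‖ ^ 2 := by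
  refine lt_of_lt_of_eq Pool.Agent.Q23.SP.LL_prod_real ?_
  rw [S, norm_prod, ← Finset.prod_pow, show (107 - 1) / 2 = 53 by norm_num]
  apply Finset.prod_congr rfl
  intro k hk
  rw [Finset.mem_Icc] at hk
  have h1 : ω⁻¹ = exp (((-(2 * Real.pi / 3) : ℝ) : ℂ) * I) := by
    rw [ω, ← exp_neg]; congr 1; push_cast; ring
  have h2 : exp (2 * (Real.pi : ℂ) * I * (k : ℂ) ^ 2 / (107 : ℕ)) =
      exp (((2 * Real.pi * (k : ℝ) ^ 2 / 107 : ℝ) : ℂ) * I) := by
    congr 1; push_cast; ring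
  rw [h1, h2, norm_sub_exp]
  congr 1
  have h4 : (-(2 * Real.pi / 3) - 2 * Real.pi * (k : ℝ) ^ 2 / 107) / 2 =
      -(Real.pi * ((107 + 3 * k ^ 2 : ℕ) : ℝ) / 321) := by
    push_cast
    ring
  rw [h4, Real.sin_neg, neg_sq]

lemma jac : jacobiSym ((107 : ℕ) : ℤ) 3 = -1 := by norm_num

lemma norm_σ : ‖σ 107‖ = 1 := by
  rw [σ, jac, norm_mul, norm_pow, norm_neg, norm_one, one_pow, one_mul]
  simp

lemma least : IsLeastSolution 107 12 2 := by
  refine ⟨⟨by norm_num, by norm_num, by rw [jac]; norm_num⟩, ?_⟩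
  intro x' y' hx hy h1
  rw [jac] at h1
  have h2 : 2 ≤ y' := by
    by_contra hlt
    have : y' = 1 := by omega
    subst this
    have h3 : (x' : ℤ) ^ 2 = 37 := by push_cast at h1; linarith
    have h4 : (x' : ℤ) < 7 := by nlinarith
    have h5 : (6 : ℤ) < x' := by nlinarith
    omega
  refine ⟨?_, h2⟩
  by_contra hlt
  push Not at hlt
  have h3 : (x' : ℤ) ≤ 11 := by omega
  have h4 : (2 : ℤ) ≤ y' := by exact_mod_cast h2
  have h5 : (0 : ℤ) ≤ x' := by positivity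
  push_cast at h1
  nlinarith

/-- **Main result.**  There is a prime `p > 3`, `p ≡ 3` modulo `4`, namely `p = 107`, for which both
identities of the problem fail. -/
theorem result : ∃ (p : ℕ) (_ : Fact p.Prime) (x y : ℕ), 3 < p ∧ p % 4 = 3 ∧
    IsLeastSolution p x y ∧ ¬ FirstIdentity p x y ∧ ¬ SecondIdentity p x y := by
  have hp : Fact (Nat.Prime 107) := ⟨by norm_num⟩
  refine ⟨107, hp, 12, 2, by norm_num, by norm_num, least, ?_, ?_⟩
  · intro h1
    have h2 := norm_S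
    unfold FirstIdentity at h1
    rw [h1, norm_mul, norm_mul, norm_σ, one_mul] at h2
    have h3 : ‖c 107‖ = 1 := by
      rw [c, if_neg (by norm_num), norm_mul, norm_mul, norm_ω]
      simp
    rw [h3, one_mul, norm_real, Real.norm_eq_abs, sq_abs] at h2
    have h4 : Real.sqrt 3 ^ 2 = 3 := Real.sq_sqrt (by norm_num)
    have h5 : Real.sqrt (107 : ℕ) ^ 2 = 107 := by
      rw [Real.sq_sqrt (by positivity)]; norm_num
    have h6 : Real.sqrt 3 * Real.sqrt (107 : ℕ) < 179165 / 10000 := by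
      rw [← Real.sqrt_mul (by norm_num)]
      rw [Real.sqrt_lt' (by norm_num)]
      norm_num
    push_cast at h2 h5 h6
    nlinarith
  · intro h1
    have h2 := norm_S'
    unfold SecondIdentity at h1
    rw [h1, norm_mul, norm_mul, norm_neg, norm_σ, one_mul] at h2
    have h3 : ‖d 107‖ = 1 := by
      rw [d, if_neg (by norm_num), norm_mul, norm_mul, norm_inv, norm_ω]
      simp
    rw [h3, one_mul, norm_real, Real.norm_eq_abs, sq_abs] at h2
    have h4 : Real.sqrt 3 ^ 2 = 3 := Real.sq_sqrt (by norm_num)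
    have h5 : Real.sqrt (107 : ℕ) ^ 2 = 107 := by
      rw [Real.sq_sqrt (by positivity)]; norm_num
    have h6 : Real.sqrt 3 * Real.sqrt (107 : ℕ) < 179165 / 10000 := by
      rw [← Real.sqrt_mul (by norm_num)]
      rw [Real.sqrt_lt' (by norm_num)]
      norm_num
    push_cast at h2 h5 h6
    nlinarith

end Pool.Agent.Results.MP_06877e_nt.FailsForOneHundredSeven
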